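import Pool.Agent.H30.SkB

set_option autoImplicit false

namespace Pool.Agent.Results.MP_fcea8d_gt.Ranges

open Pool.Agent.H30.Sk Set Filter Topology

universe u v

/-- Every set induced by a retractional skeleton on a compact space is induced by a retractional
skeleton indexed by its ranges, ordered by inclusion. -/
theorem result (K : Type u) [TopologicalSpace K] [CompactSpace K] [T2Space K]
    (Γ : Type v) [PartialOrder Γ] (r : Γ → K → K) (h : Skel Γ r) :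
    ∃ (𝓕 : Set (Set K)) (ρ : 𝓕 → K → K), (∀ F ∈ 𝓕, IsCompact F) ∧
      (∀ F : ℕ → 𝓕, Monotone F → ∃ hF : closure (⋃ n, (F n : Set K)) ∈ 𝓕,
        IsLUB (range F) ⟨closure (⋃ n, (F n : Set K)), hF⟩) ∧
      (∀ F : 𝓕, range (ρ F) = F) ∧ Skel 𝓕 ρ ∧ ⋃ F, range (ρ F) = ⋃ s, range (r s) := by
  obtain ⟨Φ, C, hΦ, c1, c2, c3, c4, c5⟩ := h.club
  let 𝓕 : Set (Set K) := (fun b => range (r (Φ b))) '' C
  have H : ∀ F : 𝓕, ∃ b ∈ C, range (r (Φ b)) = F := fun F => F.2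
  choose b b1 b2 using H
  have sub : ∀ a ∈ C, ∀ d ∈ C, a ⊆ d → range (r (Φ a)) ⊆ range (r (Φ d)) := by
    rintro a - d hd had _ ⟨x, rfl⟩
    exact ⟨_, h.u (hΦ.mono _ _ had (c1 d hd)) x⟩
  have mono : ∀ F G : 𝓕, F ≤ G → b F ⊆ b G := fun F G hFG =>
    c5 _ (b1 F) _ (b1 G) (by rw [b2, b2]; exact hFG)
  have inv : ∀ a (ha : a ∈ C), b ⟨_, a, ha, rfl⟩ = a := fun a ha =>
    (c5 _ (b1 _) _ ha (by rw [b2])).antisymm (c5 _ ha _ (b1 _) (by rw [b2]))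
  have cpt : ∀ F ∈ 𝓕, IsCompact F := by
    rintro _ ⟨a, -, rfl⟩
    exact isCompact_range (h.cont _)
  have lim : ∀ F : ℕ → 𝓕, Monotone F → ∀ x,
      Tendsto (fun n => r (Φ (b (F n))) x) atTop (𝓝 (r (Φ (⋃ n, b (F n))) x)) := fun F hF =>
    h.lim _ (fun n m hnm => hΦ.mono _ _ (mono _ _ (hF hnm)) (c1 _ (b1 _))) _
      (hΦ.lub _ (fun n m hnm => mono _ _ (hF hnm)) fun n => c1 _ (b1 _))
  have hU : ∀ F : ℕ → 𝓕, Monotone F → ⋃ n, b (F n) ∈ C := fun F hF =>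
    c3 _ (fun n m hnm => mono _ _ (hF hnm)) fun n => b1 _
  have cl : ∀ F : ℕ → 𝓕, Monotone F →
      range (r (Φ (⋃ n, b (F n)))) = closure (⋃ n, (F n : Set K)) := fun F hF => by
    refine Subset.antisymm ?_ (closure_minimal (iUnion_subset fun n => ?_)
      (isCompact_range (h.cont _)).isClosed)
    · rintro _ ⟨x, rfl⟩
      exact mem_closure_of_tendsto (lim F hF x) (Eventually.of_forall fun n =>
        mem_iUnion.2 ⟨n, by rw [← b2]; exact ⟨x, rfl⟩⟩)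
    · rw [← b2]
      exact sub _ (b1 _) _ (hU F hF) (subset_iUnion (fun n => b (F n)) n)
  have lub : ∀ F : ℕ → 𝓕, ∀ hF : closure (⋃ n, (F n : Set K)) ∈ 𝓕,
      IsLUB (range F) ⟨closure (⋃ n, (F n : Set K)), hF⟩ := fun F hF =>
    ⟨by
      rintro _ ⟨n, rfl⟩
      exact (subset_iUnion (fun n => (F n : Set K)) n).trans subset_closure,
    fun G hG => closure_minimal (iUnion_subset fun n => hG ⟨n, rfl⟩) (cpt _ G.2).isClosed⟩
  have mem : ∀ F : ℕ → 𝓕, Monotone F → closure (⋃ n, (F n : Set K)) ∈ 𝓕 := fun F hF =>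
    ⟨_, hU F hF, cl F hF⟩
  refine ⟨𝓕, fun F => r (Φ (b F)), cpt, fun F hF => ⟨mem F hF, lub F _⟩, b2,
    ⟨?_, fun F G => ?_, fun F hF => ⟨_, lub F (mem F hF)⟩, fun F => h.cont _, fun F => h.idem _,
      fun F => h.met _, fun F G hFG => h.le _ _ (hΦ.mono _ _ (mono _ _ hFG) (c1 _ (b1 _))),
      fun F hF G hG x => ?_, fun x => ?_⟩, Subset.antisymm
      (iUnion_subset fun F => subset_iUnion (fun s => range (r s)) _) (iUnion_subset fun s => ?_)⟩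
  · obtain ⟨s⟩ := h.ne
    obtain ⟨a, ha, -⟩ := c4 s
    exact ⟨⟨_, a, ha, rfl⟩⟩
  · obtain ⟨a, ha, h1, h2⟩ := c2 _ (b1 F) _ (b1 G)
    exact ⟨⟨_, a, ha, rfl⟩, (b2 F).symm.subset.trans (sub _ (b1 F) _ ha h1),
      (b2 G).symm.subset.trans (sub _ (b1 G) _ ha h2)⟩
  · have : G = ⟨_, _, hU F hF, rfl⟩ :=
      (hG.unique (lub F (mem F hF))).trans (Subtype.ext (cl F hF).symm)
    rw [this, inv _ (hU F hF)]
    exact lim F hF x
  · refine tendsto_nhds.2 fun U hUo hx => ?_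
    obtain ⟨s, hs⟩ := h.away hUo hx
    obtain ⟨a, ha, h1, -⟩ := c4 s
    refine mem_of_superset (Ici_mem_atTop (⟨_, a, ha, rfl⟩ : 𝓕)) fun G hG => hs _ ?_
    have := mono _ _ hG
    rw [inv a ha] at this
    rw [← h1, h.l (hΦ.mono _ _ this (c1 _ (b1 _))), h1]
  · obtain ⟨a, ha, -, h1⟩ := c4 s
    refine Subset.trans ?_ (subset_iUnion (fun F : 𝓕 => range (r (Φ (b F)))) ⟨_, a, ha, rfl⟩)
    rw [inv a ha]
    rintro _ ⟨x, rfl⟩
    exact ⟨_, h1 x⟩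

end Pool.Agent.Results.MP_fcea8d_gt.Ranges
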